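import Pool.Agent.Helper43.NBP.Cf
import Pool.Agent.Helper27.NC.Defs

/-!
# B1' in the frame
-/

set_option autoImplicit false

namespace Pool.Agent.Helper43.NC

open Pool.Agent.Helper19.NF (CF)
open Pool.Agent.Helper27.NC

/-- `(1 + 1 / M) ^ k ≤ 2` if `2 k ≤ M`. -/
theorem pow_le_two {M k : ℕ} (hM1 : 1 ≤ M) (hM : 2 * k ≤ M) : (((M : ℝ) + 1) / M) ^ k ≤ 2 := by
  have hM0 : (0 : ℝ) < M := by exact_mod_cast hM1
  have h1 : ((M : ℝ) + 1) / M = 1 / M + 1 := by
    field_simp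
    ring
  have h2 : ((M : ℝ) + 1) / M ≤ Real.exp (1 / M) := by
    rw [h1]
    exact Real.add_one_le_exp _
  have h3 : (k : ℝ) * (1 / M) ≤ Real.log 2 := by
    have h4 : (k : ℝ) * (1 / M) ≤ 1 / 2 := by
      rw [mul_one_div, div_le_div_iff₀ hM0 (by norm_num)]
      have : (2 * k : ℝ) ≤ M := by exact_mod_cast hM
      linarith
    have h5 := Real.log_two_gt_d9
    linarith
  calc (((M : ℝ) + 1) / M) ^ k ≤ Real.exp (1 / M) ^ k := pow_le_pow_left₀ (by positivity) h2 k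
    _ = Real.exp (k * (1 / M)) := by rw [← Real.exp_nat_mul]
    _ ≤ Real.exp (Real.log 2) := Real.exp_le_exp.2 h3
    _ = 2 := Real.exp_log (by norm_num)

/-- B1': few inputs have two equal elements in the rows below `n`. -/
theorem card_not_CF {U D B Λ F : Type} [Fintype U] [Fintype D] [AddCommGroup B] [Fintype B] [Fintype Λ] [Fintype F]
    {ρ h M : ℕ} [Nonempty D] (H : Hid Λ F (D → B) ρ h M) (hh : h ≤ Fintype.card Λ) (hM : 2 * Fintype.card B ≤ M)
    (g : D → Equiv.Perm U) (x0 : U → B) (h0 : Function.Injective x0) (n : ℕ) :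
    Nat.card {J : B × Λ → F // ¬ CF g x0 n (wd H J)} * Fintype.card B ≤
      2 * ((n * Fintype.card U) ^ 2 * Nat.card (B × Λ → F)) := by
  have hB : 1 ≤ Fintype.card B := Fintype.card_pos
  have hM1 : 1 ≤ M := by omega
  have hM0 : (0 : ℝ) < M := by exact_mod_cast hM1
  have hc : (ρ : ℝ) * Nat.card (D → B) ≤ (((M : ℝ) + 1) / M) * (Nat.card F : ℝ) ^ h := by
    have h1 : (M : ℝ) * (ρ * Nat.card (D → B)) ≤ (M + 1) * (Nat.card F : ℝ) ^ h := by
      exact_mod_cast H.card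
    rw [div_mul_eq_mul_div, le_div_iff₀ hM0]
    linarith
  have h2 := Pool.Agent.Helper43.NBP.card_not_CF H.dec H.res H.inj hc hh g x0 h0 n
  have h3 : (Nat.card {J : B × Λ → F // ¬ CF g x0 n (wd H J)} : ℝ) * Fintype.card B ≤
      2 * ((n * Fintype.card U) ^ 2 * Nat.card (B × Λ → F)) :=
    h2.trans (mul_le_mul_of_nonneg_right (pow_le_two hM1 hM) (by positivity))
  exact_mod_cast h3

end Pool.Agent.Helper43.NC
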